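import Pool.Agent.H26.Bunchy.Final

/-!
# Balanced labellings and the push-forward of fair weights

Definitions and first lemmas for `MP_644d19_co`.
-/

set_option autoImplicit false
set_option linter.unusedSectionVars false
set_option linter.deprecated false

namespace Pool.Agent.H35.Sel

open Pool.Agent.H75.Bunchy Pool.Agent.H26.Bunchy
open scoped Classical

noncomputable local instance (G : Graph) : Fintype G.V := Fintype.ofFinite _
noncomputable local instance (G : Graph) : Fintype G.E := Fintype.ofFinite _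

/-- The labelling `c` of the vertices over `J` is balanced with parameter `ρ`: for all fair weights
every label that occurs over `J` has the share `1 / ρ` of the weight of the fibre of `J`. -/
def Balanced {G B : Graph} (v : G.V → B.V) (J : B.V) (ρ : ℕ) (c : G.V → ℕ) : Prop :=
  ∀ (pr : B.V → B.V → ℝ) (μ : G.V → ℝ), FairWeights v pr μ → ∀ x, v x = J →
    (ρ : ℝ) * ∑ᶠ y ∈ {y | v y = J ∧ c y = c x}, share v μ y = 1

/-- `ρ ≥ 2` and every fibre has a balanced labelling with parameter `ρ` -/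
def Level {G B : Graph} (v : G.V → B.V) (ρ : ℕ) : Prop :=
  2 ≤ ρ ∧ ∀ K, ∃ c : G.V → ℕ, Balanced v K ρ c

section Sums
variable {α : Type*} [Fintype α]

lemma fsum (P : α → Prop) [DecidablePred P] (f : α → ℝ) :
    ∑ᶠ y ∈ {y | P y}, f y = ∑ y ∈ Finset.univ.filter P, f y := by
  rw [finsum_mem_eq_finite_toFinset_sum _ (Set.toFinite _)]
  refine Finset.sum_congr ?_ fun _ _ => rfl
  ext y
  rw [Set.Finite.mem_toFinset, Finset.mem_filter]
  simp

end Sums

variable {G Q H : Graph}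

/-- the push-forward of a weight -/
noncomputable def push (Ψ : RightResolver G Q) (μ : G.V → ℝ) (c : Q.V) : ℝ :=
  ∑ x ∈ Finset.univ.filter (fun x => Ψ.v x = c), μ x

lemma sum_push (Ψ : RightResolver G Q) (μ : G.V → ℝ) (P : Q.V → Prop) [DecidablePred P] :
    ∑ c ∈ Finset.univ.filter P, push Ψ μ c =
      ∑ x ∈ Finset.univ.filter (fun x => P (Ψ.v x)), μ x := by
  unfold push
  rw [← Finset.sum_fiberwise_of_maps_to (s := Finset.univ.filter (fun x => P (Ψ.v x)))
    (t := Finset.univ.filter P) (g := Ψ.v) (by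
      intro x hx
      rw [Finset.mem_filter] at hx ⊢
      exact ⟨Finset.mem_univ _, hx.2⟩)]
  refine Finset.sum_congr rfl fun c hc => Finset.sum_congr ?_ fun _ _ => rfl
  rw [Finset.mem_filter] at hc
  ext x
  simp only [Finset.mem_filter, Finset.mem_univ, true_and]
  constructor
  · intro h
    exact ⟨by rw [h]; exact hc.2, h⟩
  · exact fun h => h.2

lemma push_pos (Ψ : RightResolver G Q) {μ : G.V → ℝ} (hμ : ∀ x, 0 < μ x) (c : Q.V) :
    0 < push Ψ μ c := by
  obtain ⟨x, hx⟩ := Ψ.v_surj c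
  exact Finset.sum_pos (fun y _ => hμ y) ⟨x, by simp [hx]⟩

/-- push-forwards of fair weights are fair -/
lemma fair_push (Ψ : RightResolver G Q) {θ : Q.V → H.V} {v : G.V → H.V}
    (hv : ∀ p, θ (Ψ.v p) = v p) {pr : H.V → H.V → ℝ} {μ : G.V → ℝ} (h : FairWeights v pr μ) :
    FairWeights θ pr (push Ψ μ) := by
  refine ⟨h.pos, h.total, push_pos Ψ h.mu_pos, fun d => ?_⟩
  rw [fsum]
  have h1 : push Ψ μ d = ∑ f ∈ Finset.univ.filter (fun f : G.E => Ψ.v (G.tgt f) = d),
      pr (v (G.src f)) (θ d) * μ (G.src f) := by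
    unfold push
    rw [← Finset.sum_fiberwise_of_maps_to
      (s := Finset.univ.filter (fun f : G.E => Ψ.v (G.tgt f) = d))
      (t := Finset.univ.filter (fun x => Ψ.v x = d)) (g := G.tgt) (by
        intro f hf
        rw [Finset.mem_filter] at hf ⊢
        exact ⟨Finset.mem_univ _, hf.2⟩)]
    refine Finset.sum_congr rfl fun y hy => ?_
    rw [Finset.mem_filter] at hy
    rw [← h.stat y, fsum]
    refine Finset.sum_congr ?_ fun f hf => ?_
    · ext f
      simp only [Finset.mem_filter, Finset.mem_univ, true_and]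
      constructor
      · intro hf
        exact ⟨by rw [hf]; exact hy.2, hf⟩
      · exact fun hf => hf.2
    · rw [← hv y, hy.2]
  rw [h1]
  have h2 : ∀ g : Q.E, pr (θ (Q.src g)) (θ d) * push Ψ μ (Q.src g) =
      ∑ x ∈ Finset.univ.filter (fun x => Ψ.v x = Q.src g), pr (v x) (θ d) * μ x := by
    intro g
    unfold push
    rw [Finset.mul_sum]
    refine Finset.sum_congr rfl fun x hx => ?_
    rw [Finset.mem_filter] at hx
    rw [← hv x, hx.2]
  rw [Finset.sum_congr rfl fun g _ => h2 g, Finset.sum_sigma']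
  symm
  refine Finset.sum_bij (fun f _ => ⟨Ψ.e f, G.src f⟩) ?_ ?_ ?_ ?_
  · intro f hf
    simp only [Finset.mem_filter, Finset.mem_univ, true_and, Finset.mem_sigma] at hf ⊢
    exact ⟨by rw [Ψ.tgt_comm, hf], (Ψ.src_comm f).symm⟩
  · intro f _ f' _ hff
    simp only [Sigma.mk.injEq, heq_eq_eq] at hff
    exact Ψ.edge_unique hff.2 hff.1
  · rintro ⟨g, x⟩ hgx
    simp only [Finset.mem_filter, Finset.mem_univ, true_and, Finset.mem_sigma] at hgx
    obtain ⟨hg, hx⟩ := hgx
    obtain ⟨f, hf1, hf2⟩ := Ψ.exists_edge x (g := g) hx.symm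
    refine ⟨f, ?_, ?_⟩
    · simp only [Finset.mem_filter, Finset.mem_univ, true_and]
      rw [← Ψ.tgt_comm, hf2, hg]
    · simp only [hf1, hf2]
  · intro f _
    rfl

/-- shares of sets of classes -/
lemma sum_share_push (Ψ : RightResolver G Q) {θ : Q.V → H.V} {v : G.V → H.V}
    (hv : ∀ p, θ (Ψ.v p) = v p) (μ : G.V → ℝ) (J : H.V) (P : Q.V → Prop) :
    ∑ᶠ c ∈ {c | θ c = J ∧ P c}, share θ (push Ψ μ) c =
      ∑ᶠ x ∈ {x | v x = J ∧ P (Ψ.v x)}, share v μ x := by
  rw [fsum, fsum]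
  have hm : ∀ k, ∑ᶠ y ∈ {y | θ y = k}, push Ψ μ y = ∑ᶠ y ∈ {y | v y = k}, μ y := by
    intro k
    rw [fsum, fsum, sum_push]
    simp only [hv]
  unfold share
  have h1 : ∀ c, θ c = J → push Ψ μ c / ∑ᶠ y ∈ {y | θ y = θ c}, push Ψ μ y =
      push Ψ μ c / ∑ᶠ y ∈ {y | v y = J}, μ y := by
    intro c hc
    rw [hm, hc]
  have h2 : ∀ x, v x = J → μ x / ∑ᶠ y ∈ {y | v y = v x}, μ y =
      μ x / ∑ᶠ y ∈ {y | v y = J}, μ y := by
    intro x hx
    rw [hx]
  refine (Finset.sum_congr rfl fun c hc => h1 c (Finset.mem_filter.1 hc).2.1).trans ?_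
  refine Eq.trans ?_ (Finset.sum_congr rfl fun x hx => h2 x (Finset.mem_filter.1 hx).2.1).symm
  rw [← Finset.sum_div, ← Finset.sum_div, sum_push]
  congr 1
  refine Finset.sum_congr ?_ fun _ _ => rfl
  ext x
  simp only [Finset.mem_filter, Finset.mem_univ, true_and, hv]

/-- balanced labellings of a factor are balanced -/
lemma Balanced.pull (Ψ : RightResolver G Q) {θ : Q.V → H.V} {v : G.V → H.V}
    (hv : ∀ p, θ (Ψ.v p) = v p) {J : H.V} {ρ : ℕ} {c : Q.V → ℕ} (h : Balanced θ J ρ c) :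
    Balanced v J ρ (fun x => c (Ψ.v x)) := by
  intro pr μ hf x hx
  have h1 := h pr (push Ψ μ) (fair_push Ψ hv hf) (Ψ.v x) (by rw [hv, hx])
  rwa [sum_share_push Ψ hv μ J (fun q => c q = c (Ψ.v x))] at h1

lemma Level.pull (Ψ : RightResolver G Q) {θ : Q.V → H.V} {v : G.V → H.V}
    (hv : ∀ p, θ (Ψ.v p) = v p) {ρ : ℕ} (h : Level θ ρ) : Level v ρ := by
  refine ⟨h.1, fun K => ?_⟩
  obtain ⟨c, hc⟩ := h.2 K
  exact ⟨_, hc.pull Ψ hv⟩

end Pool.Agent.H35.Sel
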