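import Pool.Agent.H35.Sel.Defs

/-!
# Kernel classes of words of minimal rank give balanced labellings
-/

set_option autoImplicit false
set_option linter.unusedSectionVars false
set_option linter.deprecated false

namespace Pool.Agent.H35.Sel

open Pool.Agent.H75.Bunchy Pool.Agent.H26.Bunchy
open scoped Classical

section Aut
variable {V K E : Type*} [Fintype V] [Fintype E] {s t : E → K} {σ : V → K} {a : V → E → V}
  {pr : E → ℝ} {μ : V → ℝ}

/-- every kernel class of a word of minimal rank has the weight `1 / rank` -/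
lemma kernel_share (ha : Typed s t σ a) (hcn : Conn s σ a) (h : Stat s σ a pr μ)
    (hsu : ∀ e, ∃ p, s e = σ p) {k : K} {u : List E} (hu : Valid s t k u)
    (hr : (img σ a k u).ncard = rank s t σ a) {x : V} (hx : σ x = k) :
    (rank s t σ a : ℝ) *
      ∑ p ∈ Finset.univ.filter (fun p => σ p = k ∧ run a p u = run a x u), wt σ μ p = 1 := by
  set r := rank s t σ a with hrdef
  set T : Finset V := Finset.univ.filter (fun y => y ∈ img σ a k u) with hT
  have hTc : T.card = r := by
    rw [← hr, Set.ncard_eq_toFinset_card _ (Set.toFinite _)]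
    congr 1
    ext y
    rw [Set.Finite.mem_toFinset, hT, Finset.mem_filter]
    simp
  have htot : ∑ p ∈ Finset.univ.filter (fun p => σ p = k), wt σ μ p = 1 := by
    have := sum_wt_fibre (σ := σ) h.mu_pos x
    rw [hx] at this
    exact this
  have hmaps : ∀ p ∈ Finset.univ.filter (fun p => σ p = k), run a p u ∈ T := by
    intro p hp
    rw [Finset.mem_filter] at hp
    rw [hT, Finset.mem_filter]
    exact ⟨Finset.mem_univ _, p, hp.2, rfl⟩
  have hle : ∀ y ∈ T, (r : ℝ) *
      ∑ p ∈ (Finset.univ.filter (fun p => σ p = k)).filter (fun p => run a p u = y), wt σ μ p ≤ 1 := by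
    intro y _
    refine rank_mul_le ha hcn h hsu ?_ x
    refine ⟨k, fun p hp => ?_, u, hu, fun p hp q hq => ?_⟩
    · simp only [Finset.mem_filter, Finset.mem_univ, true_and] at hp
      exact hp.1
    · simp only [Finset.mem_filter, Finset.mem_univ, true_and] at hp hq
      rw [hp.2, hq.2]
  have hsum : ∑ y ∈ T, (r : ℝ) *
      ∑ p ∈ (Finset.univ.filter (fun p => σ p = k)).filter (fun p => run a p u = y), wt σ μ p =
        (r : ℝ) := by
    rw [← Finset.mul_sum, Finset.sum_fiberwise_of_maps_to hmaps, htot, mul_one]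
  have hxT : run a x u ∈ T := by
    rw [hT, Finset.mem_filter]
    exact ⟨Finset.mem_univ _, x, hx, rfl⟩
  have heq : Finset.univ.filter (fun p => σ p = k ∧ run a p u = run a x u) =
      (Finset.univ.filter (fun p => σ p = k)).filter (fun p => run a p u = run a x u) := by
    rw [Finset.filter_filter]
  rw [heq]
  refine le_antisymm (hle _ hxT) ?_
  by_contra hlt
  push Not at hlt
  have h1 := Finset.sum_lt_sum hle ⟨_, hxT, hlt⟩
  rw [hsum, Finset.sum_const, hTc, nsmul_eq_mul, mul_one] at h1
  exact lt_irrefl _ h1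

/-- an unstable pair is separated by the kernel of a word of minimal rank -/
lemma exists_sep (ha : Typed s t σ a) (hcn : Conn s σ a) {x y : V} (hxy : σ x = σ y)
    (hns : ¬ Stable s t σ a x y) : ∃ u, Valid s t (σ x) u ∧
      (img σ a (σ x) u).ncard = rank s t σ a ∧ run a x u ≠ run a y u := by
  unfold Stable at hns
  push Not at hns
  obtain ⟨v, hv, hvu⟩ := hns hxy
  have hf : σ (run a x v) = fin t (σ x) v := ha.run x v hv
  obtain ⟨w, hw, hr⟩ := exists_rank ha hcn (run a x v)
  rw [hf] at hw hr
  have hval : Valid s t (σ x) (v ++ w) := (valid_append _ _ _).2 ⟨hv, hw⟩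
  refine ⟨v ++ w, hval, le_antisymm ?_ (rank_le x _ hval), hvu w hw⟩
  rw [← hr]
  exact Set.ncard_le_ncard (img_append_subset ha _ v w hv) (Set.toFinite _)

lemma two_le_of_sep {x y : V} (hxy : σ x = σ y) {u : List E}
    (hr : (img σ a (σ x) u).ncard = rank s t σ a) (hne : run a x u ≠ run a y u) :
    2 ≤ rank s t σ a := by
  rw [← hr, ← Set.ncard_pair hne]
  refine Set.ncard_le_ncard ?_ (Set.toFinite _)
  rintro z (rfl | rfl)
  · exact ⟨x, rfl, rfl⟩
  · exact ⟨y, hxy.symm, rfl⟩

lemma rank_cons (ha : Typed s t σ a) {p : V} {e : E} (he : s e = σ p) {u : List E}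
    (hu : Valid s t (t e) u) (hr : (img σ a (t e) u).ncard = rank s t σ a) :
    (img σ a (s e) (e :: u)).ncard = rank s t σ a := by
  refine le_antisymm ?_ ?_
  · rw [← hr]
    exact Set.ncard_le_ncard (img_append_subset ha (s e) [e] u ⟨rfl, trivial⟩) (Set.toFinite _)
  · rw [he]
    exact rank_le p _ ⟨he, hu⟩

end Aut

noncomputable local instance (G : Graph) : Fintype G.V := Fintype.ofFinite _
noncomputable local instance (G : Graph) : Fintype G.E := Fintype.ofFinite _

/-- a number for every vertex -/
noncomputable def code (G : Graph) (x : G.V) : ℕ := (Fintype.equivFin G.V x).val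

lemma code_inj {G : Graph} {x y : G.V} : code G x = code G y ↔ x = y := by
  unfold code
  rw [Fin.val_inj]
  exact (Fintype.equivFin G.V).injective.eq_iff

variable {G H : Graph}

/-- the kernel of a word of minimal rank is a balanced labelling -/
lemma balanced_word (Φ : RightResolver G H) (hG : G.StronglyConnected) {J : H.V} {u : List H.E}
    (hu : Valid H.src H.tgt J u)
    (hr : (img Φ.v Φ.act J u).ncard = rank H.src H.tgt Φ.v Φ.act) :
    Balanced Φ.v J (rank H.src H.tgt Φ.v Φ.act) (fun x => code G (run Φ.act x u)) := by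
  intro pr μ hf x hx
  have h1 := kernel_share Φ.act_typed (Φ.conn hG) (hf.toStat Φ)
    (fun e => by obtain ⟨p, hp⟩ := Φ.v_surj (H.src e); exact ⟨p, hp.symm⟩) hu hr hx
  rw [fsum]
  rw [← h1]
  congr 1
  refine Finset.sum_congr ?_ fun y _ => share_eq _ _ _
  ext y
  simp only [Finset.mem_filter, Finset.mem_univ, true_and, code_inj]

end Pool.Agent.H35.Sel
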