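import Pool.Agent.H35.Sel.Step

/-!
# Bunchy synchronizing factors from selections of followers
-/

set_option autoImplicit false
set_option linter.unusedSectionVars false
set_option linter.deprecated false

namespace Pool.Agent.H35.Sel

open Pool.Agent.H75.Bunchy Pool.Agent.H26.Bunchy
open scoped Classical

noncomputable local instance (G : Graph) : Fintype G.V := Fintype.ofFinite _
noncomputable local instance (G : Graph) : Fintype G.E := Fintype.ofFinite _

variable {G H : Graph}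

lemma share_pos' {v : G.V → H.V} {pr : H.V → H.V → ℝ} {μ : G.V → ℝ} (hf : FairWeights v pr μ)
    (x : G.V) : 0 < share v μ x := by
  rw [share_eq]; exact wt_pos hf.mu_pos x

/-- a selection that preserves the shares for some fair weights has no obstruction -/
theorem unobstructed_of_preserves {v : G.V → H.V} {I J : H.V} {s : G.V → G.V}
    {pr : H.V → H.V → ℝ} {μ : G.V → ℝ} (hf : FairWeights v pr μ)
    (hs : ∀ x, v x = I → v (s x) = J)
    (hp : ∀ y, v y = J → ∑ᶠ x ∈ {x | v x = I ∧ s x = y}, share v μ x = share v μ y) :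
    Unobstructed v I J s := by
  intro ρ c c' i j hρ hij hc hc' h x₀ hx₀
  by_contra hne
  rcases h x₀ hx₀ with h1 | ⟨h1, h2, y₀, ⟨-, hy₀⟩, hy₀'⟩
  · exact hne h1
  have hA := hc' pr μ hf x₀ hx₀
  have hB := hc pr μ hf y₀ hy₀
  rw [fsum] at hA hB
  rw [h2] at hA
  rw [hy₀'] at hB
  have hρ' : (ρ : ℝ) ≠ 0 := by
    have : (2 : ℝ) ≤ ρ := by exact_mod_cast hρ.1
    positivity
  -- the shares of the vertices selected into the class `i`
  have hsum : ∑ x ∈ Finset.univ.filter (fun x => v x = I ∧ c (s x) = i), share v μ x =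
      ∑ y ∈ Finset.univ.filter (fun y => v y = J ∧ c y = i), share v μ y := by
    rw [← Finset.sum_fiberwise_of_maps_to
      (s := Finset.univ.filter (fun x => v x = I ∧ c (s x) = i))
      (t := Finset.univ.filter (fun y => v y = J ∧ c y = i)) (g := s) (by
        intro x hx
        rw [Finset.mem_filter] at hx ⊢
        exact ⟨Finset.mem_univ _, hs x hx.2.1, hx.2.2⟩)]
    refine Finset.sum_congr rfl fun y hy => ?_
    rw [Finset.mem_filter] at hy
    rw [← hp y hy.2.1, fsum]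
    refine Finset.sum_congr ?_ fun _ _ => rfl
    ext x
    simp only [Finset.mem_filter, Finset.mem_univ, true_and]
    constructor
    · rintro ⟨⟨h3, _⟩, h4⟩
      exact ⟨h3, h4⟩
    · rintro ⟨h3, h4⟩
      exact ⟨⟨h3, by rw [h4]; exact hy.2.2⟩, h4⟩
  have hlt : ∑ x ∈ Finset.univ.filter (fun x => v x = I ∧ c (s x) = i), share v μ x <
      ∑ x ∈ Finset.univ.filter (fun x => v x = I ∧ c' x = i), share v μ x := by
    refine Finset.sum_lt_sum_of_subset (i := x₀) ?_ ?_ ?_ (share_pos' hf x₀)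
      fun x _ _ => (share_pos' hf x).le
    · intro x hx
      simp only [Finset.mem_filter, Finset.mem_univ, true_and] at hx ⊢
      refine ⟨hx.1, ?_⟩
      rcases h x hx.1 with h3 | ⟨h3, _, _⟩
      · rw [h3]; exact hx.2
      · exact absurd (hx.2.symm.trans h3) hij
    · simp only [Finset.mem_filter, Finset.mem_univ, true_and]
      exact ⟨hx₀, h2⟩
    · simp only [Finset.mem_filter, Finset.mem_univ, true_and]
      rintro ⟨_, h3⟩
      exact hij (h3.symm.trans h1)
  rw [hsum] at hlt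
  have h3 : (ρ : ℝ) * ∑ x ∈ Finset.univ.filter (fun x => v x = I ∧ c' x = i), share v μ x =
      (ρ : ℝ) * ∑ y ∈ Finset.univ.filter (fun y => v y = J ∧ c y = i), share v μ y := by
    rw [hA, hB]
  exact hlt.ne' (mul_left_cancel₀ hρ' h3)

/-- the action of the quotient -/
lemma desc_act (Φ : RightResolver G H) {x : G.V} {g : H.E} (hg : H.src g = Φ.v x) :
    Φ.desc.act (Φ.proj.v x) g = Φ.proj.v (Φ.act x g) := by
  obtain ⟨f, rfl, rfl⟩ := Φ.exists_edge x hg
  rw [Φ.act_eq, ← Φ.desc_proj_e, ← Φ.proj.src_comm, Φ.desc.act_eq, Φ.proj.tgt_comm]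

lemma proj_eq (Φ : RightResolver G H) {x y : G.V} (h : Stable H.src H.tgt Φ.v Φ.act x y) :
    Φ.proj.v x = Φ.proj.v y := Quotient.sound (s := Φ.stab) h

/-- selections without obstruction pass to the quotient -/
lemma Unobstructed.desc (Φ Φ' : RightResolver G H) (hv : Φ'.v = Φ.v) {e : H.E}
    (h : Unobstructed Φ.v (H.src e) (H.tgt e) (fun x => Φ.act x e))
    (hact : ∀ x, Φ.v x = H.src e → Φ'.proj.v (Φ'.act x e) = Φ'.proj.v (Φ.act x e)) :
    Unobstructed Φ'.desc.v (H.src e) (H.tgt e) (fun q => Φ'.desc.act q e) := by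
  have hpv : ∀ p, Φ'.desc.v (Φ'.proj.v p) = Φ.v p := fun p => by rw [Φ'.desc_proj_v, hv]
  intro ρ c c' i j hρ hij hc hc' hq q hqI
  obtain ⟨x, rfl⟩ := Φ'.proj.v_surj q
  rw [hpv] at hqI
  have key : ∀ x, Φ.v x = H.src e →
      Φ'.desc.act (Φ'.proj.v x) e = Φ'.proj.v (Φ.act x e) := fun x hx => by
    rw [desc_act Φ' (by rw [hv, hx]), hact x hx]
  have h1 := h ρ (fun x => c (Φ'.proj.v x)) (fun x => c' (Φ'.proj.v x)) i j
    (hρ.pull Φ'.proj hpv) hij
    (hc.pull Φ'.proj hpv) (hc'.pull Φ'.proj hpv) (fun x hx => by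
      have h2 := hq (Φ'.proj.v x) (by rw [hpv, hx])
      simp only at h2
      rw [key x hx, followersOver_image Φ'.proj Φ'.desc.v Φ.v hpv] at h2
      rcases h2 with h2 | ⟨h2, h3, y, ⟨y', hy', rfl⟩, hy⟩
      · exact Or.inl h2
      · exact Or.inr ⟨h2, h3, y', hy', hy⟩) x hqI
  simp only at h1 ⊢
  rw [key x hqI]
  exact h1

/-- the condition of the induction -/
def GoodSel (e₀ : H.V → H.V → H.E) (Φ : RightResolver G H) : Prop :=
  ∀ I J, 2 ≤ H.mult I J → LocalGood Φ.v I J ∨
    (H.src (e₀ I J) = I ∧ H.tgt (e₀ I J) = J ∧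
      Unobstructed Φ.v (H.src (e₀ I J)) (H.tgt (e₀ I J)) (fun x => Φ.act x (e₀ I J)))

lemma full_desc {Φ Φ' : RightResolver G H} (hv : Φ'.v = Φ.v) {I J : H.V}
    (h : LocalGood Φ.v I J) : LocalGood Φ'.desc.v I J := by
  have hfull : ∀ p, Φ'.proj.v p ∈ Full Φ'.desc.v I J → p ∈ Full Φ.v I J := by
    intro p hp
    have := full_subset Φ'.proj Φ'.desc.v Φ' (fun p => Φ'.desc_proj_v p) I J hp
    rwa [hv] at this
  have hpv : ∀ p, Φ'.desc.v (Φ'.proj.v p) = Φ.v p := fun p => by rw [Φ'.desc_proj_v, hv]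
  rcases h with h | ⟨x, hx, h⟩
  · left
    have hsub : Full Φ'.desc.v I J ⊆ Φ'.proj.v '' Full Φ.v I J := by
      intro q hq
      obtain ⟨p, rfl⟩ := Φ'.proj.v_surj q
      exact ⟨p, hfull p hq, rfl⟩
    exact (Set.ncard_le_ncard hsub (Set.toFinite _)).trans
      ((Set.ncard_image_le (Set.toFinite _)).trans h)
  · right
    refine ⟨Φ'.proj.v x, by rw [hpv, hx], fun q hq => ?_⟩
    obtain ⟨p, rfl⟩ := Φ'.proj.v_surj q
    obtain ⟨K, hK1, hK2⟩ := h p (hfull p hq)
    refine ⟨Φ'.proj.v K, ?_, ?_⟩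
    · rw [followersOver_image Φ'.proj Φ'.desc.v Φ.v hpv]
      exact ⟨K, hK1, rfl⟩
    · rw [followersOver_image Φ'.proj Φ'.desc.v Φ.v hpv]
      exact ⟨K, hK2, rfl⟩

/-- the step of the induction -/
lemma sel_step {e₀ : H.V → H.V → H.E} (Φ : RightResolver G H) (hG : G.StronglyConnected)
    (hgood : GoodSel e₀ Φ) {p₀ : G.V} {g g' : H.E} (hsg : H.src g = Φ.v p₀)
    (hsg' : H.src g' = H.src g) (htg' : H.tgt g' = H.tgt g) (hne : Φ.act p₀ g ≠ Φ.act p₀ g')
    (hmult : 2 ≤ H.mult (H.src g) (H.tgt g)) :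
    ∃ Φ' : RightResolver G H, Φ'.v = Φ.v ∧ ¬ NoStable H.src H.tgt Φ'.v Φ'.act ∧
      GoodSel e₀ Φ'.desc := by
  rcases hgood _ _ hmult with h3 | ⟨hes, het, hun⟩
  · obtain ⟨Φ', hv, hst, hact⟩ := local_step Φ hG hsg hsg' htg' hne h3
    refine ⟨Φ', hv, hst, fun I J hIJ => ?_⟩
    by_cases hIJ' : I = H.src g ∧ J = H.tgt g
    · obtain ⟨rfl, rfl⟩ := hIJ'
      exact Or.inl (full_desc hv h3)
    · rcases hgood I J hIJ with h | ⟨h1, h2, h⟩
      · exact Or.inl (full_desc hv h)
      · refine Or.inr ⟨h1, h2, h.desc Φ Φ' hv fun x _ => ?_⟩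
        rw [hact x _ (by rw [h1, h2]; exact hIJ')]
  · -- one of the two letters differs from the selected one
    set e := e₀ (H.src g) (H.tgt g) with he
    obtain ⟨f, hfs, hft, hf⟩ : ∃ f, H.src f = H.src e ∧ H.tgt f = H.tgt e ∧
        Φ.act p₀ e ≠ Φ.act p₀ f := by
      by_cases h : Φ.act p₀ e = Φ.act p₀ g
      · exact ⟨g', by rw [hsg', hes], by rw [htg', het], by rw [h]; exact hne⟩
      · exact ⟨g, hes.symm, het.symm, h⟩
    obtain ⟨Φ', hv, hact⟩ := Φ.exists_flip hfs.symm hft.symm {p₀}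
    have hp₀ : Φ.v p₀ = H.src e := by rw [hes, hsg]
    have hstab := stable_flip Φ hG hp₀ hfs hft hun hf Φ' hv hact
    have hproj := proj_eq Φ' hstab
    refine ⟨Φ', hv, fun hno => hf (hno _ _ hstab), fun I J hIJ => ?_⟩
    rcases hgood I J hIJ with h | ⟨h1, h2, h⟩
    · exact Or.inl (full_desc hv h)
    · refine Or.inr ⟨h1, h2, h.desc Φ Φ' hv fun x _ => ?_⟩
      by_cases hx : x = p₀
      · subst hx
        by_cases hIJ' : I = H.src g ∧ J = H.tgt g
        · obtain ⟨rfl, rfl⟩ := hIJ'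
          rw [← he, hact, flip_left (Set.mem_singleton _)]
          exact hproj.symm
        · have hne1 : e₀ I J ≠ e := by
            intro h3
            exact hIJ' ⟨h1.symm.trans ((congrArg H.src h3).trans hes),
              h2.symm.trans ((congrArg H.tgt h3).trans het)⟩
          have hne2 : e₀ I J ≠ f := by
            intro h3
            exact hIJ' ⟨h1.symm.trans ((congrArg H.src h3).trans (hfs.trans hes)),
              h2.symm.trans ((congrArg H.tgt h3).trans (hft.trans het))⟩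
          rw [hact, flip_other hne1 hne2]
      · rw [hact, flip_of_notMem (by simpa using hx)]

/-- relative form -/
theorem relative_sel (H : Graph) (e₀ : H.V → H.V → H.E) : ∀ (n : ℕ) (G : Graph),
    Nat.card G.V = n → G.StronglyConnected → ∀ Φ : RightResolver G H, GoodSel e₀ Φ →
    ∃ (Q : Graph) (Θ : RightResolver Q H) (Ψ : RightResolver G Q), Ψ.Synchronizing ∧
      (∀ p, Θ.v (Ψ.v p) = Φ.v p) ∧
      ∀ c : Q.V, Set.BijOn Θ.v (Q.Followers c) (H.Followers (Θ.v c)) := by
  intro n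
  induction n using Nat.strong_induction_on with
  | _ n ih =>
  intro G hn hG Φ hgood
  by_cases hb : ∀ c : G.V, Set.BijOn Φ.v (G.Followers c) (H.Followers (Φ.v c))
  · exact ⟨G, Φ, RightResolver.id G, RightResolver.id_synchronizing G, fun _ => rfl, hb⟩
  push Not at hb
  obtain ⟨p₀, hp₀⟩ := hb
  have hmaps : Set.MapsTo Φ.v (G.Followers p₀) (H.Followers (Φ.v p₀)) := by
    intro q hq; rw [followers_image]; exact ⟨q, hq, rfl⟩
  have hsurj : Set.SurjOn Φ.v (G.Followers p₀) (H.Followers (Φ.v p₀)) := by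
    rw [followers_image]; exact Set.surjOn_image _ _
  have hninj : ¬ Set.InjOn Φ.v (G.Followers p₀) := fun h => hp₀ ⟨hmaps, h, hsurj⟩
  unfold Set.InjOn at hninj
  push Not at hninj
  obtain ⟨q, ⟨f, hf1, hf2⟩, q', ⟨f', hf1', hf2'⟩, hqq, hne⟩ := hninj
  have hsg : H.src (Φ.e f) = Φ.v p₀ := by rw [Φ.src_comm, hf1]
  have hsg' : H.src (Φ.e f') = H.src (Φ.e f) := by rw [Φ.src_comm, Φ.src_comm, hf1, hf1']
  have htg' : H.tgt (Φ.e f') = H.tgt (Φ.e f) := by
    rw [Φ.tgt_comm, Φ.tgt_comm, hf2, hf2', hqq]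
  have hact : Φ.act p₀ (Φ.e f) ≠ Φ.act p₀ (Φ.e f') := by
    have h1 := Φ.act_eq f
    have h2 := Φ.act_eq f'
    rw [hf1] at h1
    rw [hf1'] at h2
    rw [h1, h2, hf2, hf2']; exact hne
  have hmult : 2 ≤ H.mult (H.src (Φ.e f)) (H.tgt (Φ.e f)) := by
    have h12 : Φ.e f ≠ Φ.e f' := fun h => hact (by rw [h])
    rw [← Set.ncard_pair h12]
    refine Set.ncard_le_ncard ?_ (Set.toFinite _)
    rintro x (rfl | rfl)
    · exact ⟨rfl, rfl⟩
    · exact ⟨hsg', htg'⟩
  obtain ⟨Φ', hv, hst, hgood'⟩ := sel_step Φ hG hgood hsg hsg' htg' hact hmult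
  have hlt := card_quot_lt Φ' hst
  rw [hn] at hlt
  obtain ⟨Q, Θ, Ψ, hΨ, hcomm, hbij⟩ := ih _ hlt Φ'.quot rfl (StronglyConnected.map Φ'.proj hG)
    Φ'.desc hgood'
  refine ⟨Q, Θ, RightResolver.comp Ψ Φ'.proj,
    RightResolver.Synchronizing.comp hΨ Φ'.proj_synchronizing, fun p => ?_, hbij⟩
  rw [RightResolver.comp_v, hcomm, Φ'.desc_proj_v, hv]

/-- the condition on a pair of vertices of `B` joined by at least two edges -/
def SelPair {G B : Graph} (v : G.V → B.V) (I J : B.V) : Prop :=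
  LocalGood v I J ∨
  ∃ s : G.V → G.V, (∀ x, v x = I → s x ∈ FollowersOver v x J) ∧
    ((∃ (pr : B.V → B.V → ℝ) (μ : G.V → ℝ), FairWeights v pr μ ∧
      ∀ y, v y = J → ∑ᶠ x ∈ {x | v x = I ∧ s x = y}, share v μ x = share v μ y) ∨
    Unobstructed v I J s)

/-- a recolouring in which one letter of every bundle of a given set is a given selection -/
lemma exists_letters (Φ : RightResolver G H) (T : H.V → H.V → Prop) (e₀ : H.V → H.V → H.E)
    (he : ∀ I J, T I J → H.src (e₀ I J) = I ∧ H.tgt (e₀ I J) = J)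
    (s : H.V → H.V → G.V → G.V)
    (hs : ∀ I J, T I J → ∀ x, Φ.v x = I → s I J x ∈ FollowersOver Φ.v x J) :
    ∃ Φ' : RightResolver G H, Φ'.v = Φ.v ∧
      ∀ I J, T I J → ∀ x, Φ.v x = I → Φ'.act x (e₀ I J) = s I J x := by
  obtain ⟨Φ', hv, hΦ'⟩ := Φ.exists_recolor (fun p π =>
    ∀ J, T (Φ.v p) J → Φ.act p (π (e₀ (Φ.v p) J)) = s (Φ.v p) J p) (by
      intro p
      have hf : ∀ J, ∃ f, T (Φ.v p) J → H.src f = Φ.v p ∧ H.tgt f = J ∧
          Φ.act p f = s (Φ.v p) J p := by
        intro J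
        by_cases hT : T (Φ.v p) J
        · have h1 := hs _ J hT p rfl
          rw [Φ.mem_followersOver] at h1
          obtain ⟨f, h2, h3, h4⟩ := h1
          exact ⟨f, fun _ => ⟨h2, h3, h4⟩⟩
        · obtain ⟨f⟩ : Nonempty H.E := by
            by_contra hne
            rw [not_nonempty_iff] at hne
            exact hne.elim (e₀ (Φ.v p) J)
          exact ⟨f, fun h => absurd h hT⟩
      choose f hf using hf
      set F : H.E → H.E := fun g => if H.src g = Φ.v p ∧ T (Φ.v p) (H.tgt g) then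
        Equiv.swap (e₀ (Φ.v p) (H.tgt g)) (f (H.tgt g)) g else g with hF
      have hst : ∀ g, H.src (F g) = H.src g ∧ H.tgt (F g) = H.tgt g := by
        intro g
        rw [hF]
        by_cases h : H.src g = Φ.v p ∧ T (Φ.v p) (H.tgt g)
        · simp only [h, and_self, if_true]
          have h1 := he _ _ h.2
          have h2 := hf _ h.2
          by_cases h3 : g = e₀ (Φ.v p) (H.tgt g)
          · have h4 : Equiv.swap (e₀ (Φ.v p) (H.tgt g)) (f (H.tgt g)) g = f (H.tgt g) := by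
              conv_lhs => rw [show Equiv.swap (e₀ (Φ.v p) (H.tgt g)) (f (H.tgt g)) g =
                Equiv.swap (e₀ (Φ.v p) (H.tgt g)) (f (H.tgt g)) (e₀ (Φ.v p) (H.tgt g)) by rw [← h3]]
              exact Equiv.swap_apply_left _ _
            rw [h4]
            exact ⟨h2.1, h2.2.1⟩
          · by_cases h5 : g = f (H.tgt g)
            · have h4 : Equiv.swap (e₀ (Φ.v p) (H.tgt g)) (f (H.tgt g)) g =
                  e₀ (Φ.v p) (H.tgt g) := by
                conv_lhs => rw [show Equiv.swap (e₀ (Φ.v p) (H.tgt g)) (f (H.tgt g)) g =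
                  Equiv.swap (e₀ (Φ.v p) (H.tgt g)) (f (H.tgt g)) (f (H.tgt g)) by rw [← h5]]
                exact Equiv.swap_apply_right _ _
              rw [h4]
              exact h1
            · rw [Equiv.swap_apply_of_ne_of_ne h3 h5]
              exact ⟨h.1, rfl⟩
        · simp only [h, if_false]
          exact ⟨trivial, trivial⟩
      have hinv : Function.Involutive F := by
        intro g
        have h1 := hst g
        by_cases h : H.src g = Φ.v p ∧ T (Φ.v p) (H.tgt g)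
        · have h2 : F (F g) = Equiv.swap (e₀ (Φ.v p) (H.tgt g)) (f (H.tgt g)) (F g) := by
            conv_lhs => rw [hF]
            simp only
            rw [if_pos (by rw [h1.1, h1.2]; exact h), h1.2]
          have h3 : F g = Equiv.swap (e₀ (Φ.v p) (H.tgt g)) (f (H.tgt g)) g := by
            rw [hF]
            simp only
            rw [if_pos h]
          rw [h2, h3, Equiv.swap_apply_self]
        · have h3 : F g = g := by
            rw [hF]
            simp only
            rw [if_neg h]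
          rw [h3, h3]
      refine ⟨hinv.toPerm, fun g => by rw [Function.Involutive.coe_toPerm]; exact hst g,
        fun J hT => ?_⟩
      rw [Function.Involutive.coe_toPerm]
      have h1 := he _ _ hT
      have h2 := hf _ hT
      have h3 : F (e₀ (Φ.v p) J) = f J := by
        rw [hF]
        simp only [h1.1, h1.2, true_and]
        rw [if_pos hT, Equiv.swap_apply_left]
      rw [h3]
      exact h2.2.2)
  refine ⟨Φ', hv, fun I J hT x hx => ?_⟩
  subst hx
  obtain ⟨π, _, hQ, hact⟩ := hΦ' x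
  rw [hact]
  exact hQ J hT

theorem main_sel (G B : Graph) (hG : G.StronglyConnected) (hB : IsBunchy B)
    (Φ : RightResolver G B) (hgood : ∀ I J, 2 ≤ B.mult I J → SelPair Φ.v I J) :
    ∃ H : Graph, IsBunchy H ∧ ∃ Ψ : RightResolver G H, Ψ.Synchronizing := by
  -- the pairs with a selection
  set T : B.V → B.V → Prop := fun I J => 2 ≤ B.mult I J ∧ ¬ LocalGood Φ.v I J with hT
  have hsel : ∀ I J, ∃ s : G.V → G.V, T I J → (∀ x, Φ.v x = I → s x ∈ FollowersOver Φ.v x J) ∧
      Unobstructed Φ.v I J s := by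
    intro I J
    by_cases h : T I J
    · rcases hgood I J h.1 with h1 | ⟨s, h1, h2⟩
      · exact absurd h1 h.2
      · refine ⟨s, fun _ => ⟨h1, ?_⟩⟩
        rcases h2 with ⟨pr, μ, hf, hp⟩ | h2
        · exact unobstructed_of_preserves hf (fun x hx => (h1 x hx).2) hp
        · exact h2
    · exact ⟨id, fun h' => absurd h' h⟩
  choose s hs using hsel
  by_cases hE : Nonempty B.E
  swap
  · -- no edges
    rw [not_nonempty_iff] at hE
    refine Pool.Agent.H75.Bunchy.main G B hG hB Φ fun I J h => ?_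
    have h0 : B.mult I J = 0 := by
      unfold Graph.mult
      rw [Set.ncard_eq_zero (Set.toFinite _)]
      ext x
      exact hE.elim x
    omega
  obtain ⟨g₀⟩ := hE
  have hedge : ∀ I J, ∃ e, T I J → B.src e = I ∧ B.tgt e = J := by
    intro I J
    by_cases h : T I J
    · obtain ⟨x, hx, -⟩ := (Set.one_lt_ncard_iff_nontrivial_and_finite.1
        (lt_of_lt_of_le one_lt_two h.1)).1
      exact ⟨x, fun _ => hx⟩
    · exact ⟨g₀, fun h' => absurd h' h⟩
  choose e₀ he₀ using hedge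
  obtain ⟨Φ₁, hv₁, hact₁⟩ := exists_letters Φ T e₀ he₀ s (fun I J h => (hs I J h).1)
  obtain ⟨Q, Θ, Ψ, hΨ, _, hbij⟩ := relative_sel B e₀ _ G rfl hG Φ₁ (fun I J hIJ => by
    by_cases h : LocalGood Φ.v I J
    · left; rw [hv₁]; exact h
    · right
      have hTIJ : T I J := ⟨hIJ, h⟩
      obtain ⟨h1, h2⟩ := he₀ I J hTIJ
      refine ⟨h1, h2, ?_⟩
      rw [h1, h2, hv₁]
      intro ρ c c' i j hρ hij hc hc' hq x hx
      show c' x = c (Φ₁.act x (e₀ I J))
      rw [hact₁ I J hTIJ x hx]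
      exact (hs I J hTIJ).2 ρ c c' i j hρ hij hc hc' (fun x hx => by
        have := hq x hx
        simp only at this
        rwa [hact₁ I J hTIJ x hx] at this) x hx)
  obtain ⟨M, hM, Λ, hΛ⟩ := hB
  refine ⟨Q, ⟨M, hM, RightResolver.comp Λ Θ, fun I => ?_⟩, Ψ, hΨ⟩
  exact (hΛ (Θ.v I)).comp (hbij I)

end Pool.Agent.H35.Sel
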