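import Pool.Agent.H35.Sel.Kern

/-!
# Flipping one vertex of a good selection
-/

set_option autoImplicit false
set_option linter.unusedSectionVars false
set_option linter.deprecated false

namespace Pool.Agent.H35.Sel

open Pool.Agent.H75.Bunchy Pool.Agent.H26.Bunchy
open scoped Classical

/-- The selection `s` of followers over `J` of the vertices over `I` has no obstruction: for no
`ρ ≥ 2` for which all fibres have balanced labellings, no such labellings `c` over `J` and `c'`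
over `I` and no labels `i ≠ j` does `c'` arise from `c ∘ s` by changing the label `j` to `i` on a
nonempty set of vertices each of which has a follower over `J` with the label `i`. -/
def Unobstructed {G B : Graph} (v : G.V → B.V) (I J : B.V) (s : G.V → G.V) : Prop :=
  ∀ (ρ : ℕ) (c c' : G.V → ℕ) (i j : ℕ), Level v ρ → i ≠ j → Balanced v J ρ c → Balanced v I ρ c' →
    (∀ x, v x = I → c' x = c (s x) ∨
      (c (s x) = j ∧ c' x = i ∧ ∃ y ∈ FollowersOver v x J, c y = i)) →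
    ∀ x, v x = I → c' x = c (s x)

noncomputable local instance (G : Graph) : Fintype G.V := Fintype.ofFinite _
noncomputable local instance (G : Graph) : Fintype G.E := Fintype.ofFinite _

variable {G H : Graph}

/-- the ends of the flipped pair are stable -/
lemma stable_flip (Φ : RightResolver G H) (hG : G.StronglyConnected) {e h : H.E} {p₀ : G.V}
    (hp : Φ.v p₀ = H.src e) (hs : H.src h = H.src e) (ht : H.tgt h = H.tgt e)
    (hgood : Unobstructed Φ.v (H.src e) (H.tgt e) (fun x => Φ.act x e))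
    (hne : Φ.act p₀ e ≠ Φ.act p₀ h) (Φ' : RightResolver G H) (hv : Φ'.v = Φ.v)
    (hact : Φ'.act = flip e h {p₀} Φ.act) :
    Stable H.src H.tgt Φ'.v Φ'.act (Φ.act p₀ e) (Φ.act p₀ h) := by
  by_contra hns
  set x := Φ.act p₀ e with hx
  set y := Φ.act p₀ h with hy
  have hvx : Φ'.v x = H.tgt e := by rw [hv]; exact Φ.act_typed p₀ e hp.symm
  have hvy : Φ'.v y = H.tgt e := by
    rw [hv, ← ht]; exact Φ.act_typed p₀ h (by rw [hs, hp])
  obtain ⟨u, hu, hr, hsep⟩ := exists_sep Φ'.act_typed (Φ'.conn hG) (hvx.trans hvy.symm) hns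
  have h2 := two_le_of_sep (s := H.src) (t := H.tgt) (hvx.trans hvy.symm) hr hsep
  rw [hvx] at hu hr
  have hb := balanced_word Φ' hG hu hr
  have hb' := balanced_word Φ' hG (J := H.src e) (u := e :: u) ⟨rfl, hu⟩
    (rank_cons Φ'.act_typed (p := p₀) (by rw [hv, hp]) hu hr)
  have hlev : Level Φ'.v (rank H.src H.tgt Φ'.v Φ'.act) := by
    refine ⟨h2, fun K => ?_⟩
    obtain ⟨q, hq⟩ := Φ'.v_surj K
    obtain ⟨w, hw, hrw⟩ := exists_rank Φ'.act_typed (Φ'.conn hG) q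
    rw [hq] at hw hrw
    exact ⟨_, balanced_word Φ' hG hw hrw⟩
  rw [hv] at hb hb' hlev
  have hp₀ : Φ'.act p₀ e = y := by rw [hact, flip_left (Set.mem_singleton _)]
  have hother : ∀ q, q ≠ p₀ → Φ'.act q e = Φ.act q e := fun q hq => by
    rw [hact, flip_of_notMem (by simpa using hq)]
  have h3 := hgood _ _ _ (code G (run Φ'.act y u)) (code G (run Φ'.act x u)) hlev
    (fun h => hsep (code_inj.1 h).symm) hb hb' (fun q _ => by
      by_cases hq : q = p₀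
      · subst hq
        right
        refine ⟨rfl, by simp only [run_cons, hp₀], y, ?_, rfl⟩
        rw [Φ.mem_followersOver]
        exact ⟨h, by rw [hs, hp], ht, rfl⟩
      · left
        simp only [run_cons, hother q hq]) p₀ hp
  simp only [run_cons, hp₀] at h3
  exact hsep (code_inj.1 h3).symm

/-- at most three full vertices: a recolouring of the bundle with a stable pair -/
lemma three_step (Φ : RightResolver G H) (hG : G.StronglyConnected) {p₀ : G.V} {g g' : H.E}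
    (hsg : H.src g = Φ.v p₀) (hsg' : H.src g' = H.src g) (htg' : H.tgt g' = H.tgt g)
    (hne : Φ.act p₀ g ≠ Φ.act p₀ g') (h3 : (Full Φ.v (H.src g) (H.tgt g)).ncard ≤ 3) :
    ∃ Φ' : RightResolver G H, Φ'.v = Φ.v ∧ ¬ NoStable H.src H.tgt Φ'.v Φ'.act ∧
      ∀ x f, ¬ (H.src f = H.src g ∧ H.tgt f = H.tgt g) → Φ'.act x f = Φ.act x f := by
  have h12 : g ≠ g' := fun h => hne (by rw [h])
  -- from a set of flips to a recolouring
  have conv : ∀ Φ₁ : RightResolver G H, Φ₁.v = Φ.v →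
      (∀ x f, ¬ (H.src f = H.src g ∧ H.tgt f = H.tgt g) → Φ₁.act x f = Φ.act x f) →
      (∃ δ : Set G.V, ¬ NoStable H.src H.tgt Φ₁.v (flip g g' δ Φ₁.act)) →
      ∃ Φ' : RightResolver G H, Φ'.v = Φ.v ∧ ¬ NoStable H.src H.tgt Φ'.v Φ'.act ∧
        ∀ x f, ¬ (H.src f = H.src g ∧ H.tgt f = H.tgt g) → Φ'.act x f = Φ.act x f := by
    rintro Φ₁ hv₁ hact₁ ⟨δ, hδ⟩
    obtain ⟨Φ', hv', hact'⟩ := Φ₁.exists_flip hsg'.symm htg'.symm δ
    refine ⟨Φ', by rw [hv', hv₁], by rw [hv', hact']; exact hδ, fun x f hf => ?_⟩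
    rw [hact', flip_other (by rintro rfl; exact hf ⟨rfl, rfl⟩)
      (by rintro rfl; exact hf ⟨hsg', htg'⟩), hact₁ x f hf]
  by_cases hfull : (Full Φ.v (H.src g) (H.tgt g)).Nonempty
  · obtain ⟨Φ₁, hv₁, hΦ₁⟩ := Φ.exists_recolor (fun p π =>
      (∀ f, ¬ (H.src f = H.src g ∧ H.tgt f = H.tgt g) → π f = f) ∧
      (Φ.v p = H.src g → p ∉ Full Φ.v (H.src g) (H.tgt g) →
        Φ.act p (π g) = Φ.act p (π g'))) (by
        intro p
        by_cases hp : Φ.v p = H.src g ∧ p ∉ Full Φ.v (H.src g) (H.tgt g)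
        · obtain ⟨π, h1, h2, h3⟩ := exists_perm_same Φ hp.1 hp.2 h12 rfl rfl hsg' htg'
          exact ⟨π, h1, h2, fun _ _ => h3⟩
        · exact ⟨1, fun _ => ⟨rfl, rfl⟩, fun _ _ => rfl, fun h1 h2 => absurd ⟨h1, h2⟩ hp⟩)
    have hD : Diff H.src Φ₁.v Φ₁.act g g' = Full Φ₁.v (H.src g) (H.tgt g) := by
      refine diff_eq_full Φ₁ h12 rfl rfl hsg' htg' ?_
      intro p hp hpf
      obtain ⟨π, _, hQ, hπ⟩ := hΦ₁ p
      rw [hπ, hπ]
      exact hQ.2 (by rw [← hv₁]; exact hp) (by rw [← hv₁]; exact hpf)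
    refine conv Φ₁ hv₁ (fun x f hf => ?_)
      (three hsg'.symm htg'.symm Φ₁.act_typed (Φ₁.conn hG) ?_ ?_)
    · obtain ⟨π, _, hQ, hπ⟩ := hΦ₁ x
      rw [hπ, hQ.1 f hf]
    · rw [hD, hv₁]; exact hfull
    · rw [hD, hv₁]; exact h3
  · obtain ⟨Φ₁, hv₁, hΦ₁⟩ := Φ.exists_recolor (fun p π =>
      (∀ f, ¬ (H.src f = H.src g ∧ H.tgt f = H.tgt g) → π f = f) ∧
      (p ≠ p₀ → Φ.v p = H.src g → Φ.act p (π g) = Φ.act p (π g')) ∧ (p = p₀ → π = 1)) (by
        intro p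
        by_cases hp0 : p = p₀
        · exact ⟨1, fun _ => ⟨rfl, rfl⟩, fun _ _ => rfl, fun h => absurd hp0 h, fun _ => rfl⟩
        by_cases hp : Φ.v p = H.src g
        · obtain ⟨π, h1, h2, h3⟩ := exists_perm_same Φ hp
            (fun h => hfull ⟨p, h⟩) h12 rfl rfl hsg' htg'
          exact ⟨π, h1, h2, fun _ _ => h3, fun h => absurd h hp0⟩
        · exact ⟨1, fun _ => ⟨rfl, rfl⟩, fun _ _ => rfl, fun _ h1 => absurd h1 hp,
            fun h => absurd h hp0⟩)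
    have hD : Diff H.src Φ₁.v Φ₁.act g g' = {p₀} := by
      ext p
      obtain ⟨π, _, hQ, hπ⟩ := hΦ₁ p
      constructor
      · rintro ⟨h1, h2⟩
        by_contra hp
        rw [hπ, hπ] at h2
        exact h2 (hQ.2.1 (by simpa using hp) (by rw [← hv₁]; exact h1.symm))
      · intro hp
        rw [Set.mem_singleton_iff] at hp
        subst hp
        refine ⟨by rw [hv₁]; exact hsg, ?_⟩
        rw [hπ, hπ, hQ.2.2 rfl]
        exact hne
    refine conv Φ₁ hv₁ (fun x f hf => ?_)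
      (three hsg'.symm htg'.symm Φ₁.act_typed (Φ₁.conn hG) ?_ ?_)
    · obtain ⟨π, _, hQ, hπ⟩ := hΦ₁ x
      rw [hπ, hQ.1 f hf]
    · rw [hD]; exact Set.singleton_nonempty _
    · rw [hD, Set.ncard_singleton]; omega

/-- a vertex with two followers over `J` which has a common follower over `J` with all other full
vertices over `I`: a recolouring of the bundle with a stable pair -/
lemma star_local (Φ : RightResolver G H) (hG : G.StronglyConnected) {g g' : H.E} (h12 : g ≠ g')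
    (hsg' : H.src g' = H.src g) (htg' : H.tgt g' = H.tgt g) {x₀ : G.V} (hx₀ : Φ.v x₀ = H.src g)
    {g₁ g₂ : H.E} (h1s : H.src g₁ = H.src g) (h1t : H.tgt g₁ = H.tgt g)
    (h2s : H.src g₂ = H.src g) (h2t : H.tgt g₂ = H.tgt g) (hne : Φ.act x₀ g₁ ≠ Φ.act x₀ g₂)
    (hcf : ∀ y ∈ Full Φ.v (H.src g) (H.tgt g), y ≠ x₀ →
      (FollowersOver Φ.v x₀ (H.tgt g) ∩ FollowersOver Φ.v y (H.tgt g)).Nonempty) :
    ∃ Φ' : RightResolver G H, Φ'.v = Φ.v ∧ ¬ NoStable H.src H.tgt Φ'.v Φ'.act ∧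
      ∀ x f, ¬ (H.src f = H.src g ∧ H.tgt f = H.tgt g) → Φ'.act x f = Φ.act x f := by
  have hg12 : g₁ ≠ g₂ := fun h => hne (by rw [h])
  obtain ⟨π₀, hπ₀1, hπ₀f, hπ₀g, hπ₀g'⟩ := exists_perm2 H h12 hg12 hsg'.symm htg'.symm
    h1s.symm h1t.symm h2s.symm h2t.symm
  obtain ⟨Φ₁, hv₁, hΦ₁⟩ := Φ.exists_recolor (fun p π =>
    (∀ f, ¬ (H.src f = H.src g ∧ H.tgt f = H.tgt g) → π f = f) ∧
    (p ≠ x₀ → Φ.v p = H.src g → p ∉ Full Φ.v (H.src g) (H.tgt g) →
      Φ.act p (π g) = Φ.act p (π g')) ∧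
    (p ∈ Full Φ.v (H.src g) (H.tgt g) → p ≠ x₀ →
      ∃ i, H.src i = H.src g ∧ Φ.act p (π i) = Φ.act x₀ (π₀ i)) ∧
    (p = x₀ → π = π₀)) (by
      intro p
      by_cases hpx : p = x₀
      · exact ⟨π₀, hπ₀1, hπ₀f, fun h => absurd hpx h, fun _ h => absurd hpx h, fun _ => rfl⟩
      by_cases hp : Φ.v p = H.src g ∧ p ∉ Full Φ.v (H.src g) (H.tgt g)
      · obtain ⟨π, h1, h2, h3⟩ := exists_perm_same Φ hp.1 hp.2 h12 rfl rfl hsg' htg'
        exact ⟨π, h1, h2, fun _ _ _ => h3, fun h => absurd h hp.2, fun h => absurd h hpx⟩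
      by_cases hpf : p ∈ Full Φ.v (H.src g) (H.tgt g)
      · obtain ⟨K, hK1, hK2⟩ := hcf p hpf hpx
        rw [Φ.mem_followersOver] at hK1 hK2
        obtain ⟨i, hi1, hi2, hi3⟩ := hK1
        obtain ⟨j, hj1, hj2, hj3⟩ := hK2
        have hvp : Φ.v p = H.src g := hpf.1
        have hi' := hπ₀1 (π₀.symm i)
        rw [Equiv.apply_symm_apply] at hi'
        have hsi : H.src (π₀.symm i) = H.src g := by rw [← hi'.1, hi1, hx₀]
        have hti : H.tgt (π₀.symm i) = H.tgt g := by rw [← hi'.2, hi2]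
        obtain ⟨π, hπ1, hπ2, hπ3⟩ := exists_perm1 H (e := π₀.symm i) (f := j)
          (by rw [hsi, hj1, hvp]) (by rw [hti, hj2])
        refine ⟨π, hπ1, fun f hf => hπ2 f (by rw [hsi, hti]; exact hf),
          fun _ h1 h2 => absurd ⟨h1, h2⟩ hp, fun _ _ => ⟨π₀.symm i, hsi, ?_⟩,
          fun h => absurd h hpx⟩
        rw [hπ3, hj3, Equiv.apply_symm_apply, hi3]
      · exact ⟨1, fun _ => ⟨rfl, rfl⟩, fun _ _ => rfl, fun _ h1 h2 => absurd ⟨h1, h2⟩ hp,
          fun h => absurd h hpf, fun h => absurd h hpx⟩)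
  obtain ⟨ρ, _, hQ₀, hρ⟩ := hΦ₁ x₀
  have hρ₀ := hQ₀.2.2.2 rfl
  have hout : ∀ x f, ¬ (H.src f = H.src g ∧ H.tgt f = H.tgt g) → Φ₁.act x f = Φ.act x f := by
    intro x f hf
    obtain ⟨π, _, hQ, hπ⟩ := hΦ₁ x
    rw [hπ, hQ.1 f hf]
  refine ⟨Φ₁, hv₁, universal hsg'.symm htg'.symm Φ₁.act_typed (Φ₁.conn hG) (x := x₀) ?_ ?_, hout⟩
  · refine ⟨by rw [hv₁]; exact hx₀.symm, ?_⟩
    rw [hρ, hρ, hρ₀, hπ₀g, hπ₀g']
    exact hne
  · intro y hy hyx hdead
    obtain ⟨π, _, hQ, hπ⟩ := hΦ₁ y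
    by_cases hyf : y ∈ Full Φ.v (H.src g) (H.tgt g)
    · obtain ⟨i, hi, hact⟩ := hQ.2.2.1 hyf hyx
      refine hdead.2 [i] ⟨?_, trivial⟩ ?_
      · rw [hv₁, hi]; exact hx₀.symm
      · simp only [run_cons, run_nil]
        rw [hπ, hρ, hact, hρ₀]
    · apply hy.2
      rw [hπ, hπ]
      exact hQ.2.1 hyx (by rw [← hv₁]; exact hy.1.symm) hyf

/-- at most three full vertices, or a vertex over `I` that has a common follower over `J` with
every full vertex -/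
def LocalGood {G B : Graph} (v : G.V → B.V) (I J : B.V) : Prop :=
  (Full v I J).ncard ≤ 3 ∨
  ∃ x, v x = I ∧ ∀ y ∈ Full v I J, (FollowersOver v x J ∩ FollowersOver v y J).Nonempty

/-- the local step -/
lemma local_step (Φ : RightResolver G H) (hG : G.StronglyConnected) {p₀ : G.V} {g g' : H.E}
    (hsg : H.src g = Φ.v p₀) (hsg' : H.src g' = H.src g) (htg' : H.tgt g' = H.tgt g)
    (hne : Φ.act p₀ g ≠ Φ.act p₀ g') (h3 : LocalGood Φ.v (H.src g) (H.tgt g)) :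
    ∃ Φ' : RightResolver G H, Φ'.v = Φ.v ∧ ¬ NoStable H.src H.tgt Φ'.v Φ'.act ∧
      ∀ x f, ¬ (H.src f = H.src g ∧ H.tgt f = H.tgt g) → Φ'.act x f = Φ.act x f := by
  rcases h3 with h3 | ⟨x₀, hx₀, hgood⟩
  · exact three_step Φ hG hsg hsg' htg' hne h3
  have h12 : g ≠ g' := fun h => hne (by rw [h])
  by_cases hfull : (Full Φ.v (H.src g) (H.tgt g)).Nonempty
  swap
  · refine three_step Φ hG hsg hsg' htg' hne ?_
    rw [Set.not_nonempty_iff_eq_empty.1 hfull, Set.ncard_empty]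
    omega
  by_cases hx2 : ∃ g₁ g₂ : H.E, H.src g₁ = H.src g ∧ H.tgt g₁ = H.tgt g ∧ H.src g₂ = H.src g ∧
      H.tgt g₂ = H.tgt g ∧ Φ.act x₀ g₁ ≠ Φ.act x₀ g₂
  · obtain ⟨g₁, g₂, h1, h2, h3, h4, h5⟩ := hx2
    exact star_local Φ hG h12 hsg' htg' hx₀ h1 h2 h3 h4 h5 (fun y hy _ => hgood y hy)
  · obtain ⟨x₁, hx₁⟩ := hfull
    have hinj := ((Φ.mem_full_iff _ _ x₁).1 hx₁).2
    refine star_local Φ hG h12 hsg' htg' hx₁.1 rfl rfl hsg' htg'
      (fun h => h12 (hinj ⟨rfl, rfl⟩ ⟨hsg', htg'⟩ h)) (fun y hy _ => ?_)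
    obtain ⟨K, hK1, hK2⟩ := hgood x₁ hx₁
    obtain ⟨K', hK1', hK2'⟩ := hgood y hy
    have hKK : K = K' := by
      rw [Φ.mem_followersOver] at hK1 hK1'
      obtain ⟨i, hi1, hi2, hi3⟩ := hK1
      obtain ⟨i', hi1', hi2', hi3'⟩ := hK1'
      rw [← hi3, ← hi3']
      by_contra hcon
      exact hx2 ⟨i, i', by rw [hi1, hx₀], hi2, by rw [hi1', hx₀], hi2', hcon⟩
    subst hKK
    exact ⟨K, hK2, hK2'⟩

end Pool.Agent.H35.Sel
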